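import Pool.Agent.Helper76.Sem

/-!
COLOURING is solvable in polynomial time on (diamond, P1+P5)-free graphs.
-/

namespace Pool.Agent.Results.MP_b6a47d_lc.DiamondP1P5

open SimpleGraph Turing Computability Pool.Agent.Helper76

/-- Some Turing machine decides in polynomial time, given the code of a graph `G` and a number
`k`, whether `G` is (diamond, P1+P5)-free and has a proper colouring with at most `k` colours. -/
theorem result : ∃ χ : ColInst → Bool,
    (∀ x : ColInst, χ x = true ↔ ¬ diamond ⊴ x.G ∧ ¬ P1P5 ⊴ x.G ∧ x.G.Colorable x.k) ∧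
    Nonempty (TM2ComputableInPolyTime ColInst.code encodeBool χ) := by
  classical
  refine ⟨fun x => decide (¬ diamond ⊴ x.G ∧ ¬ P1P5 ⊴ x.G ∧ x.G.Colorable x.k), by simp, ?_⟩
  refine Pool.Agent.Helper4.Glue.polyTime_of_cmd _ _ (Prog.main 10 QB 4) (Prog.ok_main 4) 4
    (fun m => 3 * m + 10) ?_ ?_
  · exact ((Pool.Agent.Helper72.PB.const 3).mul Pool.Agent.Helper72.PB.id).add
      (Pool.Agent.Helper72.PB.const 10)
  · rintro ⟨n, G, k⟩
    set mat := ((List.finRange n).map fun i => (List.finRange n).map fun j =>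
      decide (G.Adj i j)).flatten with hmat
    have hcode : ColInst.code ⟨n, G, k⟩ =
        Pool.Agent.Helper72.un n ++ false :: (mat ++ encodeNat k) := by
      rw [hmat, ColInst.code]
    rw [hcode]
    obtain ⟨h1, h2, h3⟩ := Prog.main_spec (N := 10) (Q := QB) (k0 := 4) (by norm_num) n k
      (3 * (Pool.Agent.Helper72.un n ++ false :: (mat ++ encodeNat k)).length + 10) mat
      (by rw [hmat]; exact length_mat _) le_rfl
    have h4 := cond_iff G k (mat ++ encodeNat k) (fun i j => by
      rw [hmat, bit_mat]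
      simp)
    rw [df_iff, p15f_iff] at h4
    refine ⟨h1, ?_⟩
    by_cases h : ¬ diamond ⊴ G ∧ ¬ P1P5 ⊴ G ∧ G.Colorable k
    · rw [h2 (h4.2 h)]
      simp [h]
    · rw [h3 (fun h' => h (h4.1 h'))]
      simp only [h, decide_false, Bool.false_eq_true, if_false]

end Pool.Agent.Results.MP_b6a47d_lc.DiamondP1P5
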